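import Pool.Agent.H10.AU.Ind

/-!
# Divergent trajectories of the `3x+1` map: finite automata and the time shifts

Let the trajectory of `a` be divergent. If the trajectory of `z` meets it, `T^k z = T^j a`, then the
time shift `u = k - j` of `z` relative to `a` does not depend on the choice of `k` and `j`. The set of
the `z` with a time shift in a given residue class modulo `m` and in a given window of the normal law
is asymptotically independent of every automatic set, in every base. In particular no finite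
automaton which reads the digits of `n` in some base guesses the time shift modulo `m` better than at
random, no automatic set separates two divergent trajectories, and the generating functions of these
sets are transcendental over the rational functions, over every field.
-/

set_option autoImplicit false

namespace Pool.Agent.Results.MP_ff4775_nt.AutomaticSets

open Finset Filter Topology

/-- The `3x+1` map on the integers. -/
def T (x : ℤ) : ℤ := if x % 2 = 0 then x / 2 else (3 * x + 1) / 2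

/-- The trajectory of `x` is divergent. -/
def Divergent (x : ℤ) : Prop := Tendsto (fun k : ℕ => |T^[k] x|) atTop atTop

/-- The trajectory of `x` meets that of `a` with the time shift `u`: after `k` steps it is at the point
where the trajectory of `a` is after `j` steps, and `u = k - j`. -/
def Shift (a x u : ℤ) : Prop := ∃ k j : ℕ, T^[k] x = T^[j] a ∧ u = (k : ℤ) - j

/-- `2 / log (4/3) * log |z| + x * log 3 * √(2 log |z| / (log (4/3))^3)` -/
noncomputable def bound (x : ℝ) (z : ℤ) : ℝ :=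
  2 / Real.log (4 / 3) * Real.log |(z : ℝ)|
    + x * (Real.log 3 * Real.sqrt (2 * Real.log |(z : ℝ)| / Real.log (4 / 3) ^ 3))

/-- The distribution function of the standard normal law. -/
noncomputable def Phi (x : ℝ) : ℝ :=
  ProbabilityTheory.cdf (ProbabilityTheory.gaussianReal 0 1) x

/-- The integers `z` whose trajectories meet the trajectory of `a` with a time shift `u` such that
`bound y z < u ≤ bound x z` and `u ≡ p` modulo `m`. -/
def Window (a : ℤ) (m : ℕ) (p : ℤ) (y x : ℝ) : Set ℤ :=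
  {z : ℤ | ∃ u : ℤ, Shift a z u ∧ bound y z < u ∧ (u : ℝ) ≤ bound x z ∧ u ≡ p [ZMOD m]}

/-- The sequence `w` is `b`-automatic: it has finitely many subsequences `w (b ^ e * n + r)`, `n ≥ 0`,
with `r < b ^ e` (its `b`-kernel is finite). -/
def Automatic {α : Type} (b : ℕ) (w : ℕ → α) : Prop :=
  {v : ℕ → α | ∃ e r : ℕ, r < b ^ e ∧ v = fun n => w (b ^ e * n + r)}.Finite

/-- The natural numbers `n` with `s * n ∈ S`. -/
def side (s : ℤ) (S : Set ℤ) : Set ℕ := {n | s * (n : ℤ) ∈ S}

/-- The number of the `n` in `A` with `1 ≤ n ≤ N`. -/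
noncomputable def count (A : Set ℕ) (N : ℕ) : ℕ := {n : ℕ | 1 ≤ n ∧ n ≤ N ∧ n ∈ A}.ncard

open Classical in
/-- The generating function of the set `A` over the field `K`. -/
noncomputable def gen (K : Type) [Field K] (A : Set ℕ) : PowerSeries K :=
  PowerSeries.mk fun n => if n ∈ A then (1 : K) else 0

/-! ### proofs -/

open Pool.Agent.H10.AU

theorem ker_of {b : ℕ} {A : Set ℕ} (h : Automatic b fun n => n ∈ A) : (Ker b A).Finite := by
  refine (h.image fun v : ℕ → Prop => {n | v n}).subset ?_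
  rintro D ⟨e, r, hr, rfl⟩
  exact ⟨_, ⟨e, r, hr, rfl⟩, rfl⟩

theorem ker_level {b : ℕ} {w : ℕ → ℤ} (h : Automatic b w) (m : ℕ) (p : ℤ) :
    (Ker b {n | w n ≡ p [ZMOD m]}).Finite := by
  refine (h.image fun v : ℕ → ℤ => {n | v n ≡ p [ZMOD m]}).subset ?_
  rintro D ⟨e, r, hr, rfl⟩
  exact ⟨_, ⟨e, r, hr, rfl⟩, rfl⟩

theorem div_T (x : ℤ) : Divergent x ↔ Divergent (T x) := by
  unfold Divergent
  rw [← tendsto_add_atTop_iff_nat (f := fun k : ℕ => |T^[k] x|) 1]
  simp only [Function.iterate_succ_apply]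

/-- from `T` to the map `n/2`, `3n+1` -/
theorem ci_of {S : Set ℤ} (h : ∀ x, x ∈ S ↔ T x ∈ S) (x : ℤ) :
    x ∈ S ↔ Pool.Agent.H499R2.ND.Ci x ∈ S := by
  unfold Pool.Agent.H499R2.ND.Ci
  by_cases h2 : x % 2 = 0
  · rw [if_pos h2, h x]
    have : T x = x / 2 := by unfold T; rw [if_pos h2]
    rw [this]
  · rw [if_neg h2, h x, h (3 * x + 1)]
    have h3 : T x = (3 * x + 1) / 2 := by unfold T; rw [if_neg h2]
    have h4 : T (3 * x + 1) = (3 * x + 1) / 2 := by unfold T; rw [if_pos (by omega)]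
    rw [h3, h4]

/-- sets invariant under `T` and its inverse -/
theorem ind_inv {s : ℤ} (hs : s = 1 ∨ s = -1) {S : Set ℤ} (hS : ∀ x, x ∈ S ↔ T x ∈ S) :
    ∃ δ : ℝ, (0 < δ ↔ ∃ x ∈ S, 0 < s * x) ∧ (δ = 1 ↔ ∀ x, 0 < s * x → x ∈ S) ∧ Ind δ (sd s S) := by
  classical
  obtain ⟨δ, h1, h2, h3, h4, h5, h6, h7⟩ := Pool.Agent.H10.AU.inv_seq hs (ci_of hS)
  refine ⟨δ, h1, h2, fun b hb A hA => conv h3 h4 fun ε hε => ?_⟩
  have hf : ∀ n : ℕ, |(if s * (n : ℤ) ∈ S then (1 : ℝ) else 0) - δ| ≤ 1 := by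
    intro n
    rw [abs_le]
    split_ifs <;> constructor <;> linarith
  exact Pool.Agent.H10.AU.indep hb (A := A) hA
    (f := fun n : ℕ => (if s * (n : ℤ) ∈ S then (1 : ℝ) else 0) - δ) hf h6 h7 hε

/-- the integers whose trajectories meet that of `a` -/
def Class (a : ℤ) : Set ℤ := {x | ∃ u : ℤ, Shift a x u}

theorem class_T (a x : ℤ) : x ∈ Class a ↔ T x ∈ Class a := by
  constructor
  · rintro ⟨u, k, j, h, -⟩
    refine ⟨_, k, j + 1, ?_, rfl⟩
    rw [← Function.iterate_succ_apply, Function.iterate_succ_apply', h,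
      ← Function.iterate_succ_apply' T j]
  · rintro ⟨u, k, j, h, -⟩
    exact ⟨_, k + 1, j, by rw [Function.iterate_succ_apply]; exact h, rfl⟩

theorem unique {a x u u' : ℤ} (ha : Divergent a) (h : Shift a x u) (h' : Shift a x u') : u = u' :=
  JointShiftLaws.shift_unique ha h h'

theorem cases_of {a : ℤ} (ha : Divergent a) : a.sign = 1 ∨ a.sign = -1 := JointShiftLaws.sign_cases ha

/-- the density of the class of `a` -/
noncomputable def dens (a : ℤ) : ℝ := JointShiftLaws.dens a

theorem cn_side {s : ℤ} (hs : s = 1 ∨ s = -1) (S : Set ℤ) (N : ℕ) :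
    cn (sd s S) N = {n : ℤ | 0 < s * n ∧ s * n ≤ N ∧ n ∈ S}.ncard := by
  have hss : ∀ z : ℤ, s * (s * z) = z := fun z => by rcases hs with rfl | rfl <;> ring
  have hs0 : s ≠ 0 := by rcases hs with rfl | rfl <;> norm_num
  have e : {n : ℤ | 0 < s * n ∧ s * n ≤ N ∧ n ∈ S} =
      (fun n : ℕ => s * (n : ℤ)) '' {n : ℕ | 1 ≤ n ∧ n ≤ N ∧ n ∈ sd s S} := by
    ext z
    simp only [Set.mem_ofPred_eq, Set.mem_image, sd]
    constructor
    · rintro ⟨h2, h3, h4⟩
      refine ⟨(s * z).toNat, ⟨by omega, by omega, ?_⟩, ?_⟩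
      · rw [Int.toNat_of_nonneg h2.le, hss]; exact h4
      · rw [Int.toNat_of_nonneg h2.le, hss]
    · rintro ⟨n, ⟨h2, h3, h4⟩, rfl⟩
      rw [hss]
      exact ⟨by exact_mod_cast h2, by exact_mod_cast h3, h4⟩
  rw [e, Set.ncard_image_of_injective]
  · rfl
  · intro i j hij
    exact_mod_cast mul_left_cancel₀ hs0 hij

theorem ind_class {a : ℤ} (ha : Divergent a) : Ind (dens a) (sd a.sign (Class a)) := by
  obtain ⟨δ, -, -, h⟩ := ind_inv (cases_of ha) (class_T a)
  have h1 : Tendsto (fun N : ℕ => (cn (sd a.sign (Class a)) N : ℝ) / N) atTop (𝓝 (dens a)) := by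
    have h2 := (JointShiftLaws.dens_spec ha).2.2.1
    refine h2.congr fun N => ?_
    rw [cn_side (cases_of ha)]
    rfl
  rw [tendsto_nhds_unique h1 h.density]
  exact h

theorem phi_mem (x : ℝ) : 0 < Phi x ∧ Phi x < 1 := by
  constructor
  · exact lt_of_le_of_lt (ProbabilityTheory.cdf_nonneg _ (x - 1))
      (JointShiftLaws.phi_lt (show x - 1 < x by linarith))
  · exact lt_of_lt_of_le (JointShiftLaws.phi_lt (show x < x + 1 by linarith))
      (ProbabilityTheory.cdf_le_one _ (x + 1))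

theorem ind_window {a : ℤ} (ha : Divergent a) {m : ℕ} (hm : 1 ≤ m) (p : ℤ) {y x : ℝ} (h : y ≤ x) :
    Ind (dens a * (Phi x - Phi y) / m) (sd a.sign (Window a m p y x)) := by
  classical
  intro b hb A hA
  have hs := cases_of ha
  obtain ⟨h0, h1, -, hlaw⟩ := JointShiftLaws.dens_spec ha
  have H := Pool.Agent.Q179.DV.GF.hyp_WS hs h0.le h1 hm (hlaw hs m hm) p h
  have hw := Pool.Agent.Q179.DV.GF.w_mem h0.le h1 hm h
  rw [JointShiftLaws.window_eq ha hs rfl m p y x, JointShiftLaws.phi_eq, JointShiftLaws.phi_eq] at H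
  rw [JointShiftLaws.phi_eq, JointShiftLaws.phi_eq] at hw
  refine conv hw.1 hw.2 fun ε hε => ?_
  obtain ⟨N0, hN0⟩ := indep_hyp hb hA H hε
  refine ⟨N0, fun N hN => ?_⟩
  have h2 := hN0 N hN
  unfold Pool.Agent.W41.FU.bal Pool.Agent.W41.ind at h2
  convert h2 using 6
  · exact Iff.rfl
  · rfl

/-- the integers with a time shift in a residue class -/
def Res (a : ℤ) (m : ℕ) (p : ℤ) : Set ℤ := {z | ∃ u : ℤ, Shift a z u ∧ u ≡ p [ZMOD m]}

theorem ind_res {a : ℤ} (ha : Divergent a) {m : ℕ} (hm : 1 ≤ m) {p : ℕ} (hp : p < m) :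
    Ind (dens a / m) (sd a.sign (Res a m p)) := by
  classical
  intro b hb A hA
  have hm0 : (0 : ℝ) < m := by exact_mod_cast hm
  have hm1 : (1 : ℝ) ≤ m := by exact_mod_cast hm
  obtain ⟨h0, h1⟩ := (ind_class ha).mem
  rw [Metric.tendsto_atTop]
  intro ε hε
  set η : ℝ := ε / (4 * m) with hη
  have hη0 : 0 < η := by positivity
  obtain ⟨x, hx⟩ : ∃ x : ℝ, 1 - η / 2 < Phi x ∧ Phi (-x) < η / 2 ∧ 0 ≤ x := by
    have e1 := (ProbabilityTheory.tendsto_cdf_atTop (ProbabilityTheory.gaussianReal 0 1)).eventually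
      (lt_mem_nhds (show 1 - η / 2 < 1 by linarith))
    have e2 := ((ProbabilityTheory.tendsto_cdf_atBot (ProbabilityTheory.gaussianReal 0 1)).comp
      tendsto_neg_atTop_atBot).eventually (gt_mem_nhds (show 0 < η / 2 by positivity))
    obtain ⟨x, h2, h3⟩ := (e1.and (e2.and (eventually_ge_atTop 0))).exists
    exact ⟨x, h2, h3.1, h3.2⟩
  obtain ⟨hx1, hx2, hx0⟩ := hx
  have hxx : -x ≤ x := by linarith
  have hcl := (ind_class ha).eventually_le hb hA hη0
  have hwin : ∀ᶠ N : ℕ in atTop, ∀ q ∈ range m, |(cn (A ∩ sd a.sign (Window a m (q : ℕ) (-x) x)) N : ℝ) -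
      dens a * (Phi x - Phi (-x)) / m * cn A N| ≤ η * N := by
    rw [Filter.eventually_all_finset]
    intro q _
    exact (ind_window ha hm q hxx).eventually_le hb hA hη0
  obtain ⟨N0, hN0⟩ := eventually_atTop.1 (hcl.and hwin)
  refine ⟨max N0 1, fun N hN => ?_⟩
  obtain ⟨g1, g2⟩ := hN0 N (le_trans (le_max_left _ _) hN)
  have hN' : (0 : ℝ) < N := by exact_mod_cast le_trans (le_max_right _ _) hN
  set cA : ℝ := (cn A N : ℝ) with hcA
  have hcA0 : 0 ≤ cA := Nat.cast_nonneg _
  have hcA1 : cA ≤ N := by rw [hcA]; exact_mod_cast cn_le A N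
  have hlow : ∀ q ∈ range m, dens a / m * cA - 2 * η * N ≤ cn (A ∩ sd a.sign (Res a m q)) N := by
    intro q hq
    have e1 := (abs_le.1 (g2 q hq)).1
    have e2 : (cn (A ∩ sd a.sign (Window a m q (-x) x)) N : ℝ) ≤ cn (A ∩ sd a.sign (Res a m q)) N := by
      have : cn (A ∩ sd a.sign (Window a m q (-x) x)) N ≤ cn (A ∩ sd a.sign (Res a m q)) N := by
        apply cn_mono
        rintro n - ⟨k1, u, k2, -, -, k3⟩
        exact ⟨k1, u, k2, k3⟩
      exact_mod_cast this
    have e3 : 1 - η ≤ Phi x - Phi (-x) := by linarith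
    have e4 : dens a / m * cA - η * N ≤ dens a * (Phi x - Phi (-x)) / m * cA := by
      have e5 : dens a * (Phi x - Phi (-x)) / m * cA = dens a / m * cA * (Phi x - Phi (-x)) := by ring
      rw [e5]
      have e6 : 0 ≤ dens a / m * cA := by positivity
      have e7 : dens a / m * cA ≤ N := by
        have : dens a / m ≤ 1 := by rw [div_le_one hm0]; linarith
        nlinarith
      nlinarith
    linarith
  have hup : ∑ q ∈ range m, (cn (A ∩ sd a.sign (Res a m q)) N : ℝ) ≤ cn (A ∩ sd a.sign (Class a)) N := by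
    apply cn_sum_le
    · rintro q - n - ⟨k1, u, k2, -⟩
      exact ⟨k1, u, k2⟩
    · rintro q hq q' hq' n ⟨-, u, k1, k2⟩ ⟨-, u', k3, k4⟩
      obtain rfl := unique ha k1 k3
      rw [mem_range] at hq hq'
      have h6 : (q : ℤ) ≡ (q' : ℤ) [ZMOD m] := k2.symm.trans k4
      unfold Int.ModEq at h6
      rw [Int.emod_eq_of_lt (by omega) (by omega), Int.emod_eq_of_lt (by omega) (by omega)] at h6
      exact_mod_cast h6
  have e1 := (abs_le.1 g1).2
  have e2 : ∑ q ∈ (range m).erase p, (dens a / m * cA - 2 * η * N) ≤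
      ∑ q ∈ (range m).erase p, (cn (A ∩ sd a.sign (Res a m q)) N : ℝ) :=
    sum_le_sum fun q hq => hlow q (mem_of_mem_erase hq)
  rw [sum_const, card_erase_of_mem (mem_range.2 hp), card_range, nsmul_eq_mul,
    Nat.cast_sub hm, Nat.cast_one] at e2
  have e3 := add_sum_erase (range m) (fun q => (cn (A ∩ sd a.sign (Res a m q)) N : ℝ)) (mem_range.2 hp)
  have e4 := hlow p (mem_range.2 hp)
  have e5 : ((m : ℝ) - 1) * (dens a / m * cA - 2 * η * N) =
      dens a * cA - dens a / m * cA - 2 * η * N * m + 2 * η * N := by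
    field_simp
    ring
  have e6 : η * N * m = ε / 4 * N := by
    rw [hη]; field_simp
  have e7 : η * N ≤ ε / 4 * N := by
    rw [← e6]
    have : 0 ≤ η * N := by positivity
    nlinarith
  rw [Real.dist_eq, sub_zero, abs_div, abs_of_pos hN', div_lt_iff₀ hN', abs_lt]
  have hεN : 0 < ε * N := by positivity
  constructor
  · nlinarith
  · nlinarith

theorem ind_guess {a : ℤ} (ha : Divergent a) {b : ℕ} (hb : 2 ≤ b) {m : ℕ} (hm : 1 ≤ m) {w : ℕ → ℤ}
    (hw : Automatic b w) :
    Tendsto (fun N : ℕ => (count {n | ∃ u : ℤ, Shift a (a.sign * n) u ∧ u ≡ w n [ZMOD m]} N : ℝ) / N)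
      atTop (𝓝 (dens a / m)) := by
  classical
  have hm' : (0 : ℤ) < m := by exact_mod_cast hm
  have h1 : Tendsto (fun N : ℕ => ∑ q ∈ range m, ((cn ({n | w n ≡ (q : ℤ) [ZMOD m]} ∩ sd a.sign (Res a m q)) N : ℝ) -
      dens a / m * cn {n | w n ≡ (q : ℤ) [ZMOD m]} N) / N) atTop (𝓝 (∑ q ∈ range m, 0)) :=
    tendsto_finsetSum _ fun q hq => ind_res ha hm (mem_range.1 hq) b hb _ (ker_level hw m q)
  have h2 := h1.add_const (dens a / m)
  rw [sum_const_zero, zero_add] at h2
  refine h2.congr' ?_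
  filter_upwards [eventually_gt_atTop 0] with N hN
  have hN' : (0 : ℝ) < N := by exact_mod_cast hN
  have key : ∀ (C : Set ℕ), ∑ q ∈ range m, (cn ({n | w n ≡ (q : ℤ) [ZMOD m]} ∩ C) N : ℝ) = cn C N := by
    intro C
    rw [cn_sum]
    simp_rw [cn_sum]
    rw [sum_comm]
    refine sum_congr rfl fun n _ => ?_
    refine (sum_congr rfl (fun q hq => ?_)).trans (?_ : ∑ q ∈ range m,
      (if q = (w n % m).toNat then (if n ∈ C then (1 : ℝ) else 0) else 0) = _)
    · rw [mem_range] at hq
      have h4 : w n ≡ (q : ℤ) [ZMOD m] ↔ q = (w n % m).toNat := by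
        have h5 := Int.emod_nonneg (w n) hm'.ne'
        have h6 := Int.emod_lt_of_pos (w n) hm'
        unfold Int.ModEq
        rw [Int.emod_eq_of_lt (a := (q : ℤ)) (by omega) (by omega)]
        omega
      have h5 : n ∈ {n | w n ≡ (q : ℤ) [ZMOD m]} ∩ C ↔ (q = (w n % m).toNat ∧ n ∈ C) := by
        rw [Set.mem_inter_iff, Set.mem_ofPred_eq, h4]
      by_cases k1 : q = (w n % m).toNat <;> by_cases k2 : n ∈ C
      · rw [if_pos (h5.2 ⟨k1, k2⟩), if_pos k1, if_pos k2]
      · rw [if_neg (fun h => k2 (h5.1 h).2), if_pos k1, if_neg k2]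
      · rw [if_neg (fun h => k1 (h5.1 h).1), if_neg k1]
      · rw [if_neg (fun h => k1 (h5.1 h).1), if_neg k1]
    · rw [sum_ite_eq', if_pos]
      rw [mem_range]
      have h5 := Int.emod_nonneg (w n) hm'.ne'
      have h6 := Int.emod_lt_of_pos (w n) hm'
      omega
  have e1 : ∀ q ∈ range m, (cn ({n | w n ≡ (q : ℤ) [ZMOD m]} ∩ sd a.sign (Res a m q)) N : ℝ) =
      cn ({n | w n ≡ (q : ℤ) [ZMOD m]} ∩ {n | ∃ u : ℤ, Shift a (a.sign * n) u ∧ u ≡ w n [ZMOD m]}) N := by
    intro q _
    congr 2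
    ext n
    constructor
    · rintro ⟨k1, u, k2, k3⟩
      exact ⟨k1, u, k2, k3.trans k1.symm⟩
    · rintro ⟨k1, u, k2, k3⟩
      exact ⟨k1, u, k2, k3.trans k1⟩
  have e2 := key {n | ∃ u : ℤ, Shift a (a.sign * n) u ∧ u ≡ w n [ZMOD m]}
  rw [← sum_congr rfl e1] at e2
  have e3 := key Set.univ
  simp only [Set.inter_univ] at e3
  rw [cn_univ] at e3
  rw [← sum_div, sum_sub_distrib, ← mul_sum, e2, e3]
  have e4 : (count {n | ∃ u : ℤ, Shift a (a.sign * n) u ∧ u ≡ w n [ZMOD m]} N : ℝ) =
      cn {n | ∃ u : ℤ, Shift a (a.sign * n) u ∧ u ≡ w n [ZMOD m]} N := rfl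
  rw [e4]
  field_simp
  ring

theorem w_lt {a : ℤ} (ha : Divergent a) {m : ℕ} (hm : 1 ≤ m) {y x : ℝ} (h : y < x) :
    0 < dens a * (Phi x - Phi y) / m ∧ dens a * (Phi x - Phi y) / m < 1 := by
  obtain ⟨h0, h1, -⟩ := JointShiftLaws.dens_spec ha
  have hd0 : 0 < dens a := h0
  have hd1 : dens a ≤ 1 := h1
  have hm0 : (0 : ℝ) < m := by exact_mod_cast hm
  have hm1 : (1 : ℝ) ≤ m := by exact_mod_cast hm
  have h2 : 0 < Phi x - Phi y := sub_pos.2 (JointShiftLaws.phi_lt h)
  have h3 : Phi x - Phi y < 1 := by linarith [(phi_mem x).2, (phi_mem y).1]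
  refine ⟨by positivity, ?_⟩
  rw [div_lt_one hm0]
  nlinarith

/-- the sequence `s n`, `n ≥ 1`, does not consist of divergent integers -/
theorem exists_not_div {s : ℤ} (hs : s = 1 ∨ s = -1) : ∃ x : ℤ, 0 < s * x ∧ ¬ Divergent x := by
  have hno : ∀ x : ℤ, (∀ k, |T^[k] x| ≤ 2) → ¬ Divergent x := by
    intro x hx hdiv
    obtain ⟨k, hk⟩ := (hdiv.eventually (eventually_ge_atTop 3)).exists
    have := hx k
    omega
  rcases hs with rfl | rfl
  · refine ⟨1, by norm_num, hno 1 ?_⟩
    have h12 : ∀ k, T^[k] 1 = 1 ∨ T^[k] 1 = 2 := by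
      intro k
      induction k with
      | zero => left; rfl
      | succ k ih =>
        rw [Function.iterate_succ_apply']
        rcases ih with h | h <;> rw [h] <;> unfold T <;> norm_num
    intro k
    rcases h12 k with h | h <;> rw [h] <;> norm_num
  · refine ⟨-1, by norm_num, hno (-1) ?_⟩
    have h1 : ∀ k, T^[k] (-1) = -1 := by
      intro k
      induction k with
      | zero => rfl
      | succ k ih => rw [Function.iterate_succ_apply', ih]; unfold T; norm_num
    intro k
    rw [h1 k]; norm_num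

/-- There are real numbers `δ a`, positive and at most `1` if the trajectory of `a` is divergent, with
the following properties.

(1) Let the trajectory of `a` be divergent, `s` the sign of `a`, `b ≥ 2`, `m ≥ 1`, `p` an integer and
`y ≤ x`. For every `b`-automatic set `A` the number of the `n ≤ N` in `A` such that the trajectory of
`s n` meets that of `a` with a time shift which is `p` modulo `m` and in the window `(y, x]` of the
normal law is `δ a (Phi x - Phi y) / m` times the number of the `n ≤ N` in `A`, up to `o(N)`.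

(2) For every `b`-automatic sequence `w` of integers the number of the `n ≤ N` such that the
trajectory of `s n` meets that of `a` with a time shift which is `w n` modulo `m` is
`δ a / m` times `N`, up to `o(N)`.

(3) If `y < x`, then the set of the `n` such that `s n` is in the window differs from every automatic
set, in every base, by a set of positive lower density, and over every field its generating function
is transcendental over the polynomials.

(4) Let `s = 1` or `s = -1`, `A` an automatic set in some base, `m ≥ 1`, `p` an integer, `y < x` and `κ > 0`.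
If for infinitely many `N` at least `κ N` of the `n ≤ N` are in `A` but only `o(N)` of these are such
that `s n` is in the window of some divergent trajectory, then no integer of sign `s` has a divergent
trajectory.

(5) If some integer of sign `s` has a divergent trajectory, then the generating function of the set
of the `n` such that `s n` has a divergent trajectory is transcendental over the polynomials, over
every field. -/
theorem result : ∃ δ : ℤ → ℝ,
    (∀ a : ℤ, Divergent a → 0 < δ a ∧ δ a ≤ 1 ∧ ∀ m : ℕ, 1 ≤ m →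
      (∀ b : ℕ, 2 ≤ b → ∀ A : Set ℕ, Automatic b (fun n => n ∈ A) → ∀ (p : ℤ) (y x : ℝ), y ≤ x →
        Tendsto (fun N : ℕ => ((count (A ∩ side a.sign (Window a m p y x)) N : ℝ) -
          δ a * (Phi x - Phi y) / m * count A N) / N) atTop (𝓝 0)) ∧
      (∀ b : ℕ, 2 ≤ b → ∀ w : ℕ → ℤ, Automatic b w →
        Tendsto (fun N : ℕ =>
          (count {n | ∃ u : ℤ, Shift a (a.sign * n) u ∧ u ≡ w n [ZMOD m]} N : ℝ) / N)
          atTop (𝓝 (δ a / m))) ∧
      ∀ (p : ℤ) (y x : ℝ), y < x →
        (∀ b : ℕ, 2 ≤ b → ∀ A : Set ℕ, Automatic b (fun n => n ∈ A) → ∃ c : ℝ, 0 < c ∧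
          ∀ᶠ N : ℕ in atTop, c * N ≤ count (symmDiff A (side a.sign (Window a m p y x))) N) ∧
        ∀ (K : Type) [Field K],
          Transcendental (Polynomial K) (gen K (side a.sign (Window a m p y x)))) ∧
    ∀ s : ℤ, (s = 1 ∨ s = -1) →
      (∀ b : ℕ, 2 ≤ b → ∀ A : Set ℕ, Automatic b (fun n => n ∈ A) → ∀ (m : ℕ) (p : ℤ) (y x κ : ℝ),
        1 ≤ m → y < x → 0 < κ → (∀ ε : ℝ, 0 < ε → ∃ᶠ N : ℕ in atTop, κ * N ≤ count A N ∧
          (count (A ∩ side s {z | ∃ a : ℤ, Divergent a ∧ z ∈ Window a m p y x}) N : ℝ) ≤ ε * N) →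
        ∀ z : ℤ, 0 < s * z → ¬ Divergent z) ∧
      ∀ (K : Type) [Field K], (∃ x : ℤ, 0 < s * x ∧ Divergent x) →
        Transcendental (Polynomial K) (gen K (side s {x | Divergent x})) := by
  classical
  refine ⟨dens, fun a ha => ?_, fun s hs => ⟨?_, ?_⟩⟩
  · obtain ⟨h0, h1, -⟩ := JointShiftLaws.dens_spec ha
    refine ⟨h0, h1, fun m hm => ⟨fun b hb A hA p y x hyx => ?_, fun b hb w hw => ind_guess ha hb hm hw,
      fun p y x hyx => ⟨fun b hb A hA => ?_, fun K _ => ?_⟩⟩⟩
    · exact ind_window ha hm p hyx b hb A (ker_of hA)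
    · exact (ind_window ha hm p hyx.le).far (w_lt ha hm hyx).1 (w_lt ha hm hyx).2 hb (ker_of hA)
    · exact (ind_window ha hm p hyx.le).transcendental (w_lt ha hm hyx).1 (w_lt ha hm hyx).2 K
  · intro b hb A hA m p y x κ hm hyx hκ hfreq z hz hdiv
    have hzs : z.sign = s := by
      rcases hs with rfl | rfl
      · exact Int.sign_eq_one_of_pos (by omega)
      · exact Int.sign_eq_neg_one_of_neg (by omega)
    obtain ⟨hw0, hw1⟩ := w_lt hdiv hm hyx
    set w := dens z * (Phi x - Phi y) / m with hw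
    have h1 := (ind_window hdiv hm p hyx.le).eventually_le hb (ker_of hA)
      (show 0 < w * κ / 3 by positivity)
    obtain ⟨N, ⟨h2, h3⟩, h4, h5⟩ := ((hfreq (w * κ / 3) (by positivity)).and_eventually
      (h1.and (eventually_ge_atTop 1))).exists
    have hN' : (0 : ℝ) < N := by exact_mod_cast h5
    have h6 : (cn (A ∩ sd z.sign (Window z m p y x)) N : ℝ) ≤
        cn (A ∩ sd s {z | ∃ a : ℤ, Divergent a ∧ z ∈ Window a m p y x}) N := by
      have : cn (A ∩ sd z.sign (Window z m p y x)) N ≤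
          cn (A ∩ sd s {z | ∃ a : ℤ, Divergent a ∧ z ∈ Window a m p y x}) N := by
        apply cn_mono
        rintro n - ⟨k1, k2⟩
        rw [hzs] at k2
        exact ⟨k1, z, hdiv, k2⟩
      exact_mod_cast this
    have h7 := (abs_le.1 h4).1
    have h8 : (cn A N : ℝ) = count A N := rfl
    have h9 : (cn (A ∩ sd s {z | ∃ a : ℤ, Divergent a ∧ z ∈ Window a m p y x}) N : ℝ) =
      count (A ∩ side s {z | ∃ a : ℤ, Divergent a ∧ z ∈ Window a m p y x}) N := rfl
    rw [h9] at h6
    rw [← hw, h8] at h7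
    have h10 : w * (κ * N) ≤ w * count A N := mul_le_mul_of_nonneg_left h2 hw0.le
    have h11 : 0 < w * κ * N := by positivity
    linarith
  · intro K _ hex
    obtain ⟨x, hx, hdiv⟩ := hex
    obtain ⟨δ, h1, h2, h3⟩ := ind_inv hs (S := {x | Divergent x}) div_T
    have hδ0 : 0 < δ := h1.2 ⟨x, hdiv, hx⟩
    have hδ1 : δ < 1 := by
      refine lt_of_le_of_ne h3.mem.2 fun h => ?_
      obtain ⟨y, hy1, hy2⟩ := exists_not_div hs
      exact hy2 (h2.1 h y hy1)
    exact h3.transcendental hδ0 hδ1 K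

end Pool.Agent.Results.MP_ff4775_nt.AutomaticSets
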