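import Pool.Agent.H77.Lz.Err

/-!
# The parity words of the trajectories of the `3x+1` map and Lempel–Ziv phrases

A word is cut into phrases as in the Lempel–Ziv compression: a phrase has at most `s` letters or is
a copy of an earlier part of the word (and may overlap the part which it copies). All the statements
are about words `v` which may differ from the parity word of the trajectory in some places.

(1) Critical windows: if the word of the first `n` parities of an integer `x` with
`|x| ≤ 2 ^ (n / (1 + η))` has, up to a bounded number of errors, a bounded number of phrases, then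
the trajectory of `x` has entered a cycle by time `n`, up to finitely many `n`. For `η = 0` this
fails, since every word of length `n` belongs to some `x` with `0 ≤ x < 2 ^ n`.
(2), (3) The parity word of a trajectory without repetitions cannot be cut into few words with a
bounded number of phrases: the number of these words plus the number of the errors is larger than
any multiple of `log n` and of `n / log M`, where `M` bounds the first `n` terms.
(4) The same for the cycles.
(5) The consequences for the divergent trajectories.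
-/

set_option autoImplicit false

namespace Pool.Agent.Results.MP_ff4775_nt.LempelZivPhrases

open Finset Filter Topology

/-- the `3x+1` map of the problem -/
def T (x : ℤ) : ℤ := if x % 2 = 0 then x / 2 else (3 * x + 1) / 2

/-- the trajectory of `x` is divergent -/
def Divergent (x : ℤ) : Prop := Tendsto (fun k : ℕ => |T^[k] x|) atTop atTop

/-- the terms `x, T x, …, T^n x` are pairwise different -/
def Distinct (x : ℤ) (n : ℕ) : Prop := ∀ i j, i < j → j ≤ n → T^[i] x ≠ T^[j] x

/-- the parity word of the trajectory of `x` -/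
def parity (x : ℤ) (i : ℕ) : ℕ := if T^[i] x % 2 = 0 then 0 else 1

/-- the number of the places `j < n` at which the words `v` and `w` differ -/
def errors (v w : ℕ → ℕ) (n : ℕ) : ℕ := ((range n).filter fun j => v j ≠ w j).card

/-- The word `w a, …, w (b - 1)` is the concatenation of `k` phrases (cut at
`a = c 0 ≤ c 1 ≤ … ≤ c k = b`). A phrase has at most `s` letters, or it is a copy of an earlier
part of the same word: for some `p ≥ 1` the part which is copied starts `p` letters before the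
phrase, and not before `a`; the copy may overlap itself. -/
def Phrases (w : ℕ → ℕ) (s : ℝ) (k a b : ℕ) : Prop :=
  ∃ c : ℕ → ℕ, c 0 = a ∧ c k = b ∧ ∀ i < k, c i ≤ c (i + 1) ∧
    ((c (i + 1) : ℝ) ≤ c i + s ∨
      ∃ p : ℕ, 1 ≤ p ∧ a + p ≤ c i ∧ ∀ j, c i ≤ j → j < c (i + 1) → w j = w (j - p))

/-- The word `w 0, …, w (n - 1)` is the concatenation of `m` words each of which is the
concatenation of `k` phrases. -/
def Blocks (w : ℕ → ℕ) (s : ℝ) (k m n : ℕ) : Prop :=
  ∃ c : ℕ → ℕ, c 0 = 0 ∧ c m = n ∧ ∀ i < m, Phrases w s k (c i) (c (i + 1))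

open Pool.Agent.H547R3.Sub (Tm par)

lemma T_eq : T = Tm (3 : ℕ) 1 := by
  funext x
  simp [T, Tm]

lemma parity_eq (x : ℤ) : parity x = par (3 : ℕ) 1 x := by
  funext i
  unfold parity par
  rw [T_eq]

lemma distinct_iff {x : ℤ} {n : ℕ} : Distinct x n ↔ Pool.Agent.H77.Lz.Dist x n := by
  unfold Distinct Pool.Agent.H77.Lz.Dist
  rw [T_eq]

lemma errors_eq (v : ℕ → ℕ) (x : ℤ) (n : ℕ) :
    Pool.Agent.H77.Lz.errors v (par (3 : ℕ) 1 x) n = errors v (parity x) n := by
  rw [parity_eq]
  rfl

/-- a divergent trajectory has no repetitions -/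
lemma distinct_of_divergent {x : ℤ} (h : Divergent x) (n : ℕ) : Distinct x n := by
  intro i j hij _ he
  have h2 : ∀ N, T^[i + (j - i) * N] x = T^[i] x := by
    intro N
    induction N with
    | zero => rfl
    | succ N ih =>
      rw [show i + (j - i) * (N + 1) = (j - i) * N + (i + (j - i)) by ring, Function.iterate_add_apply,
        Nat.add_sub_cancel' hij.le, ← he, ← Function.iterate_add_apply, add_comm, ih]
  obtain ⟨N, hN⟩ := Filter.eventually_atTop.1 (h.eventually_gt_atTop |T^[i] x|)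
  have h1 : 1 ≤ j - i := by omega
  have h3 := hN (i + (j - i) * N) (by nlinarith)
  rw [h2] at h3
  exact lt_irrefl _ h3

/-- **Result.** -/
theorem result :
    -- (1) critical windows
    (∀ (k e : ℕ) (η κ : ℝ), 0 < η → 0 < κ → ∃ δ : ℝ, 0 < δ ∧ ∃ n₀ : ℕ, ∀ (x : ℤ) (n : ℕ) (v : ℕ → ℕ),
      n₀ ≤ n → (1 + η) * Real.logb 2 |(x : ℝ)| ≤ n → errors v (parity x) n ≤ e →
      Phrases v (δ * n) k 0 n →
      ∃ j q : ℕ, j + q ≤ n ∧ 1 ≤ q ∧ (q : ℝ) ≤ κ * n ∧ T^[j + q] x = T^[j] x) ∧
    -- (2) trajectories without repetitions: the logarithmic bound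
    (∀ (k : ℕ) (ε : ℝ), 0 < ε → ∃ A : ℝ, ∀ (x : ℤ) (s : ℝ) (m n : ℕ) (v : ℕ → ℕ), 0 ≤ s →
      Distinct x n → Blocks v s k m n →
      (n : ℝ) ≤ A * (1 + s + Real.log (|(x : ℝ)| + 1)) * Real.exp (ε * (m + errors v (parity x) n))) ∧
    -- (3) trajectories without repetitions: the bound in terms of the size of the terms
    (∀ (k : ℕ) (ε : ℝ), 0 < ε → ∃ δ A : ℝ, 0 < δ ∧ ∀ (x : ℤ) (M : ℝ) (m n : ℕ) (v : ℕ → ℕ), 2 ≤ M →
      Distinct x n → (∀ i < n, |((T^[i] x : ℤ) : ℝ)| ≤ M) →
      Blocks v (δ * Real.log M) k m n →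
      (n : ℝ) ≤ (ε * (m + errors v (parity x) n) + A) * Real.log M) ∧
    -- (4) cycles of exact length `p`
    (∀ (k : ℕ) (ε : ℝ), 0 < ε → ∃ A : ℝ, ∀ (x : ℤ) (s : ℝ) (m p : ℕ) (v : ℕ → ℕ), 0 ≤ s → 1 ≤ p →
      T^[p] x = x → (∀ j, 1 ≤ j → j < p → T^[j] x ≠ x) → Blocks v s k m p →
      (p : ℝ) ≤ A * (s + (1 + Real.log p) ^ 2) * Real.exp (ε * (m + errors v (parity x) p))) ∧
    -- (5) divergent trajectories
    (∀ (k : ℕ) (K : ℝ), ∃ δ : ℝ, 0 < δ ∧ ∀ x : ℤ, Divergent x → ∃ n₀ : ℕ, ∀ (n m : ℕ) (v : ℕ → ℕ),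
      n₀ ≤ n → (Blocks v (Real.sqrt n) k m n → K * Real.log n ≤ m + errors v (parity x) n) ∧
      ∀ M : ℝ, (∀ i < n, |((T^[i] x : ℤ) : ℝ)| ≤ M) →
        Blocks v (δ * Real.log M) k m n → K * (n / Real.log M) ≤ m + errors v (parity x) n) := by
  have part2 : ∀ (k : ℕ) (ε : ℝ), 0 < ε → ∃ A : ℝ, 0 < A ∧ ∀ (x : ℤ) (s : ℝ) (m n : ℕ) (v : ℕ → ℕ),
      0 ≤ s → Distinct x n → Blocks v s k m n →
      (n : ℝ) ≤ A * (1 + s + Real.log (|(x : ℝ)| + 1)) *
        Real.exp (ε * (m + errors v (parity x) n)) := by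
    intro k ε hε
    obtain ⟨A, hA, h⟩ := Pool.Agent.H77.Lz.chain_err k ε hε
    refine ⟨A, hA, ?_⟩
    intro x s m n v hs hd hb
    have h1 := h x s m n v hs (distinct_iff.1 hd) hb
    rw [errors_eq] at h1
    exact h1
  have part3 : ∀ (k : ℕ) (ε : ℝ), 0 < ε → ∃ δ A : ℝ, 0 < δ ∧ 0 < A ∧ ∀ (x : ℤ) (s M : ℝ) (m n : ℕ)
      (v : ℕ → ℕ), 2 ≤ M → 0 ≤ s → s ≤ δ * Real.log M → Distinct x n →
      (∀ i < n, |((T^[i] x : ℤ) : ℝ)| ≤ M) → Blocks v s k m n →
      (n : ℝ) ≤ (ε * (m + errors v (parity x) n) + A) * Real.log M := by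
    intro k ε hε
    obtain ⟨δ, A, hδ, hA, h⟩ := Pool.Agent.H77.Lz.linear_err k ε hε
    refine ⟨δ, A, hδ, hA, ?_⟩
    intro x s M m n v hM hs hsM hd hx hb
    rw [T_eq] at hx
    have h1 := h x s M m n v hs hM hsM hx (distinct_iff.1 hd) hb
    rw [errors_eq] at h1
    exact h1
  refine ⟨?_, ?_, ?_, ?_, ?_⟩
  · intro k e η κ hη hκ
    obtain ⟨δ, hδ, n0, h⟩ := Pool.Agent.H77.Lz.crit_err k e η κ hη hκ
    refine ⟨δ, hδ, n0, ?_⟩
    intro x n v hn hx he hph
    rw [← errors_eq] at he
    rw [T_eq]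
    exact h x n v hn hx he hph
  · intro k ε hε
    obtain ⟨A, -, h⟩ := part2 k ε hε
    exact ⟨A, h⟩
  · intro k ε hε
    obtain ⟨δ, A, hδ, -, h⟩ := part3 k ε hε
    refine ⟨δ, A, hδ, ?_⟩
    intro x M m n v hM hd hx hb
    exact h x _ M m n v hM (mul_nonneg hδ.le (Real.log_nonneg (by linarith))) le_rfl hd hx hb
  · intro k ε hε
    obtain ⟨A, hA, h⟩ := Pool.Agent.H77.Lz.cycles_err k ε hε
    refine ⟨A, ?_⟩
    intro x s m p v hs hp hper hprim hb
    rw [T_eq] at hper hprim
    have h1 := h x s m p v hs hp hper hprim hb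
    rw [errors_eq] at h1
    exact h1
  · intro k K
    set K' : ℝ := max K 1 with hK'
    have hK1 : 1 ≤ K' := le_max_right _ _
    have hKK : K ≤ K' := le_max_left _ _
    have hK0 : 0 < K' := by linarith
    set ε : ℝ := 1 / (4 * K') with hε
    have hε0 : 0 < ε := by positivity
    obtain ⟨A, hA, h2⟩ := part2 k ε hε0
    obtain ⟨δ1, A2, hδ1, hA2, h3⟩ := part3 k (1 / (2 * K')) (by positivity)
    set δ2 : ℝ := 1 / (4 * A * K' * Real.exp (ε * (2 * A2 * K'))) with hδ2
    have hδ20 : 0 < δ2 := by positivity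
    refine ⟨min δ1 δ2, lt_min hδ1 hδ20, ?_⟩
    intro x hx
    set X : ℝ := Real.log (|(x : ℝ)| + 1) with hX
    have hX0 : 0 ≤ X := Real.log_nonneg (by have := abs_nonneg (x : ℝ); linarith)
    -- thresholds
    have hlim : Tendsto (fun n : ℕ => A * (1 + Real.sqrt n + X) / (n : ℝ) ^ (3 / 4 : ℝ)) atTop (𝓝 0) := by
      have e1 : Tendsto (fun n : ℕ => (A * (1 + X)) * (n : ℝ) ^ (-(3 / 4) : ℝ) +
          A * (n : ℝ) ^ (-(1 / 4) : ℝ)) atTop (𝓝 (A * (1 + X) * 0 + A * 0)) := by
        apply Tendsto.add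
        · exact ((tendsto_rpow_neg_atTop (by norm_num : (0 : ℝ) < 3 / 4)).comp
            tendsto_natCast_atTop_atTop).const_mul _
        · exact ((tendsto_rpow_neg_atTop (by norm_num : (0 : ℝ) < 1 / 4)).comp
            tendsto_natCast_atTop_atTop).const_mul _
      rw [mul_zero, mul_zero, add_zero] at e1
      refine e1.congr' ?_
      filter_upwards [eventually_gt_atTop 0] with n hn
      have hn0 : (0 : ℝ) < n := by exact_mod_cast hn
      rw [Real.sqrt_eq_rpow, Real.rpow_neg hn0.le, Real.rpow_neg hn0.le]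
      have e2 : (n : ℝ) ^ (1 / 2 : ℝ) / (n : ℝ) ^ (3 / 4 : ℝ) = ((n : ℝ) ^ (1 / 4 : ℝ))⁻¹ := by
        rw [← Real.rpow_sub hn0, ← Real.rpow_neg hn0.le]
        norm_num
      have e3 : A * (1 + (n : ℝ) ^ (1 / 2 : ℝ) + X) / (n : ℝ) ^ (3 / 4 : ℝ) =
          A * (1 + X) * ((n : ℝ) ^ (3 / 4 : ℝ))⁻¹ +
            A * ((n : ℝ) ^ (1 / 2 : ℝ) / (n : ℝ) ^ (3 / 4 : ℝ)) := by
        rw [div_eq_mul_inv, div_eq_mul_inv]
        ring
      rw [e3, e2]
    obtain ⟨n1, hn1⟩ := Filter.eventually_atTop.1 (hlim.eventually (gt_mem_nhds one_pos))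
    obtain ⟨n2, hn2⟩ := exists_nat_ge (2 * (A * (1 + X) * Real.exp (ε * (2 * A2 * K'))))
    refine ⟨max (max n1 n2) 5, ?_⟩
    intro n m v hn
    have hnn1 : n1 ≤ n := ((le_max_left _ _).trans (le_max_left _ _)).trans hn
    have hnn2 : n2 ≤ n := ((le_max_right _ _).trans (le_max_left _ _)).trans hn
    have hn5 : 5 ≤ n := (le_max_right _ _).trans hn
    have hn5R : (5 : ℝ) ≤ n := by exact_mod_cast hn5
    have hn0 : (0 : ℝ) < n := by linarith
    have hlogn : 0 ≤ Real.log n := Real.log_nonneg (by linarith)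
    have hd := distinct_of_divergent hx n
    have he0 : (0 : ℝ) ≤ errors v (parity x) n := Nat.cast_nonneg _
    refine ⟨?_, ?_⟩
    · intro hb
      have h4 := h2 x (Real.sqrt n) m n v (Real.sqrt_nonneg _) hd hb
      have h5 := hn1 n hnn1
      set Z : ℝ := (m : ℝ) + errors v (parity x) n with hZ
      rw [div_lt_one (by positivity)] at h5
      have h6 : (n : ℝ) ≤ (n : ℝ) ^ (3 / 4 : ℝ) * Real.exp (ε * Z) :=
        h4.trans (mul_le_mul_of_nonneg_right h5.le (Real.exp_pos _).le)
      have h7 : Real.log n ≤ 3 / 4 * Real.log n + ε * Z := by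
        have h8 := Real.log_le_log hn0 h6
        rw [Real.log_mul (by positivity) (by positivity), Real.log_exp, Real.log_rpow hn0] at h8
        exact h8
      have h8 : 1 / 4 * Real.log n ≤ ε * Z := by linarith
      have e4 : ε * Z * (4 * K') = Z := by
        rw [hε]
        field_simp
      have h9 : K' * Real.log n ≤ Z := by
        have h10 := mul_le_mul_of_nonneg_right h8 (show (0 : ℝ) ≤ 4 * K' by positivity)
        rw [e4] at h10
        linarith
      exact (mul_le_mul_of_nonneg_right hKK hlogn).trans h9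
    · intro M hxM hb
      have hdc := Pool.Agent.H77.Lz.dist_card x n M
        ((abs_nonneg _).trans (hxM 0 (by omega))) (distinct_iff.1 hd) (by
          rw [T_eq] at hxM
          exact hxM)
      have hM2 : 2 ≤ M := by linarith
      have hlM : 0 < Real.log M := Real.log_pos (by linarith)
      have hs0 : 0 ≤ min δ1 δ2 * Real.log M := mul_nonneg (le_min hδ1.le hδ20.le) hlM.le
      have h4 := h3 x _ M m n v hM2 hs0 (mul_le_mul_of_nonneg_right (min_le_left _ _) hlM.le) hd hxM hb
      have h9 := h2 x _ m n v hs0 hd hb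
      have hm1R : (1 : ℝ) ≤ m := by
        have hm1 : 1 ≤ m := by
          by_contra hm
          have hm0 : m = 0 := by omega
          obtain ⟨c, hc0, hcm, _⟩ := hb
          rw [hm0, hc0] at hcm
          omega
        exact_mod_cast hm1
      set Z : ℝ := (m : ℝ) + errors v (parity x) n with hZ
      have hZ1 : 1 ≤ Z := by linarith
      have hc : K * (n / Real.log M) ≤ K' * (n / Real.log M) :=
        mul_le_mul_of_nonneg_right hKK (by positivity)
      refine hc.trans ?_
      have h5 : (n : ℝ) / Real.log M ≤ 1 / (2 * K') * Z + A2 := by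
        rw [div_le_iff₀ hlM]
        exact h4
      rcases le_or_gt (2 * A2) ((n : ℝ) / Real.log M) with h6 | h6
      · have h7 : (n : ℝ) / Real.log M ≤ 1 / K' * Z := by
          have e : 1 / K' * Z = 2 * (1 / (2 * K') * Z) := by field_simp
          rw [e]
          linarith
        calc K' * (n / Real.log M) ≤ K' * (1 / K' * Z) := mul_le_mul_of_nonneg_left h7 hK0.le
          _ = Z := by field_simp
      · -- `log M` is large
        by_contra hcon
        push Not at hcon
        have h7 : Real.log M ≤ K' * n := by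
          have h8 : 1 < K' * (n / Real.log M) := lt_of_le_of_lt hZ1 hcon
          rw [← mul_div_assoc, lt_div_iff₀ hlM] at h8
          linarith
        have h8 : Z ≤ 2 * A2 * K' := by
          have : K' * (n / Real.log M) ≤ K' * (2 * A2) := mul_le_mul_of_nonneg_left h6.le hK0.le
          linarith
        have h10 : Real.exp (ε * Z) ≤ Real.exp (ε * (2 * A2 * K')) :=
          Real.exp_le_exp.2 (mul_le_mul_of_nonneg_left h8 hε0.le)
        have h11 : min δ1 δ2 * Real.log M ≤ δ2 * (K' * n) :=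
          mul_le_mul (min_le_right _ _) h7 hlM.le hδ20.le
        have h12 : (n : ℝ) ≤ A * (1 + δ2 * (K' * n) + X) * Real.exp (ε * (2 * A2 * K')) := by
          refine h9.trans (mul_le_mul (mul_le_mul_of_nonneg_left (by linarith) hA.le) h10
            (Real.exp_pos _).le (by positivity))
        have h13 : A * (1 + δ2 * (K' * n) + X) * Real.exp (ε * (2 * A2 * K')) =
            A * (1 + X) * Real.exp (ε * (2 * A2 * K')) + n / 4 := by
          rw [hδ2]
          field_simp
          ring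
        rw [h13] at h12
        have h14 : (n2 : ℝ) ≤ n := by exact_mod_cast hnn2
        linarith

end Pool.Agent.Results.MP_ff4775_nt.LempelZivPhrases
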