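import Pool.Graph.R_pool_sql_team_seeded_2aa45f1a.Results.MP_ff4775_nt.WaringWithShifts
import Pool.Agent.H96.FL.Q
import Pool.Agent.H96.LM.E

set_option autoImplicit false

/-!
# Divergent trajectories of the `3x+1` map in all short windows around `α v(x) + g(x) + β`

Let the trajectory of `a` be divergent, and let `S` be the set of the integers whose trajectories meet that of `a` with a
time shift in a given residue class modulo `m` and in a given window of the normal law (for instance all integers whose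
trajectories meet that of `a`); among the integers of the sign of `a` it has a natural density `d > 0`. Let `A` be
ARBITRARY sets of positive integers of size `O(N)`. The theorem says that the translates `A + h` contain the expected
number `d |A|` of elements of `S` (up to the sign), up to `ε N`, for ALL integers `h` in windows of length
`2 W` around `α v(x) + g(x) + β`, for all but a proportion `ε` of the `x`. Here `v : Z → ℤ` is any family whose additive
energy of some order is bounded by a constant times that of a random family (it may consist of `N ^ κ` integers, `κ > 0`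
arbitrarily small), `g` is an ARBITRARY real function on `Z`, and `β` is an arbitrary real number which may depend on
everything else. For given `v`, `g` and `A` the result holds for all real `α` outside a small set `𝓔`: it meets
every interval of length `1` in a set which is covered by `C` intervals of length `2 ρ`, where `ρ > 0` is arbitrarily
small and `C` does not depend on `ρ` (and so the Hausdorff content of `𝓔` of every dimension `σ > 0` tends to `0`).

Proof: `S` has small Fourier coefficients (`Pool.Graph.R_pool_sql_team_seeded_2aa45f1a.Q179.DV.Gow`); then see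
`Pool.Agent.H96.FL` (the kernel of Fejér, absolute convergence of the Fourier series of `|1_A * (1_S - d)| ^ 2`, and the
large sieve for families of small energy).
-/

namespace Pool.Agent.Results.MP_ff4775_nt.NearRealMultiples

open Filter Topology

/-- The map `T` of the problem. -/
def T (n : ℤ) : ℤ := if n % 2 = 0 then n / 2 else (3 * n + 1) / 2

/-- The trajectory of `n` is divergent. -/
def Divergent (n : ℤ) : Prop := Tendsto (fun k : ℕ => |T^[k] n|) atTop atTop

/-- The trajectory of `x` meets that of `a` with the time shift `u`: after `k` steps it is at the point where the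
trajectory of `a` is after `j` steps, and `u = k - j`. -/
def Shift (a x u : ℤ) : Prop := ∃ k j : ℕ, T^[k] x = T^[j] a ∧ u = (k : ℤ) - j

/-- The integers whose trajectories meet the trajectory of `a`. -/
def Class (a : ℤ) : Set ℤ := {x | ∃ u : ℤ, Shift a x u}

/-- Among the integers of sign `s` the set `S` has natural density `δ`. -/
def HasDensity (s : ℤ) (S : Set ℤ) (δ : ℝ) : Prop :=
  Tendsto (fun N : ℕ => ({n : ℤ | 0 < s * n ∧ s * n ≤ N ∧ n ∈ S}.ncard : ℝ) / N) atTop (𝓝 δ)

/-- `2 / log (4/3) * log |z| + x * log 3 * √(2 log |z| / (log (4/3))^3)` -/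
noncomputable def bound (x : ℝ) (z : ℤ) : ℝ :=
  2 / Real.log (4 / 3) * Real.log |(z : ℝ)|
    + x * (Real.log 3 * Real.sqrt (2 * Real.log |(z : ℝ)| / Real.log (4 / 3) ^ 3))

/-- The distribution function of the standard normal law. -/
noncomputable def Phi (x : ℝ) : ℝ :=
  ProbabilityTheory.cdf (ProbabilityTheory.gaussianReal 0 1) x

/-- The integers `z` whose trajectories meet the trajectory of `a` with a time shift `u` such that
`bound y z < u ≤ bound x z` and `u ≡ p` modulo `m`. -/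
def Window (a : ℤ) (m : ℕ) (p : ℤ) (y x : ℝ) : Set ℤ :=
  {z : ℤ | ∃ u : ℤ, Shift a z u ∧ bound y z < u ∧ (u : ℝ) ≤ bound x z ∧ u ≡ p [ZMOD m]}

/-- The additive energy of order `t` of a finite family of integers: the number of the solutions of
`v (i 1) + ... + v (i t) = v (j 1) + ... + v (j t)`. -/
noncomputable def energy (t : ℕ) {ι : Type} [Fintype ι] (v : ι → ℤ) : ℕ :=
  Nat.card {q : (Fin t → ι) × (Fin t → ι) // ∑ j, v (q.1 j) = ∑ j, v (q.2 j)}

open Classical in
/-- the number of the `k ∈ A` such that `n = k + h` is positive and `s n` is in `S` -/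
noncomputable def hits (s : ℤ) (S : Set ℤ) (A : Finset ℕ) (h : ℤ) : ℕ :=
  (A.filter (fun k : ℕ => 0 < (k : ℤ) + h ∧ s * ((k : ℤ) + h) ∈ S)).card

open Classical in
/-- the number of the `k ∈ A` such that `k + h` is positive -/
noncomputable def positives (A : Finset ℕ) (h : ℤ) : ℕ := (A.filter (fun k : ℕ => 0 < (k : ℤ) + h)).card

/-- Every interval of length `1` meets `E` in a set which is covered by at most `n` intervals of length `2 ρ`. -/
def Small (E : Set ℝ) (n ρ : ℝ) : Prop :=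
  ∀ x : ℝ, ∃ T : Finset ℝ, (T.card : ℝ) ≤ n ∧ ∀ α ∈ E, x ≤ α → α ≤ x + 1 → ∃ t ∈ T, |α - t| ≤ ρ

/-- The real number `y` is bad for the sets `A i`, `i < R`: for some `i` and some integer `h` with `|h - y| ≤ W`,
`|h| ≤ B N`, the number of the `k ∈ A i` with `k + h > 0` and `s (k + h) ∈ S` differs from `d` times the number
of the `k ∈ A i` with `k + h > 0` by more than `ε N`. -/
def Bad (s : ℤ) (S : Set ℤ) (d : ℝ) (B W N : ℕ) (ε : ℝ) {R : ℕ} (A : Fin R → Finset ℕ) (y : ℝ) : Prop :=
  ∃ (i : Fin R) (h : ℤ), |(h : ℝ) - y| ≤ W ∧ |h| ≤ B * N ∧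
    ε * N < |(hits s S (A i) h : ℝ) - d * positives (A i) h|

open Pool.Agent.Q179.DV Pool.Agent.H96.FL
open Pool.Agent.Results.MP_ff4775_nt.WaringWithShifts (FUs_window)
open Pool.Agent.Results.MP_ff4775_nt.JointShiftLaws (sign_cases dens dens_spec)

open Classical in
lemma Del_hits (s : ℤ) (S : Set ℤ) (d : ℝ) (B N : ℕ) (A : Finset ℕ) (hA : A ⊆ Finset.Icc 1 (B * N)) (h : ℤ) (hh : |h| ≤ B * N) :
    Del (fun m => if m ∈ A then 1 else 0) (fun n => ((S.indicator (fun _ => (1 : ℝ)) (s * n) - d : ℝ) : ℂ)) (2 * B * N) h =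
      (((hits s S A h : ℝ) - d * positives A h : ℝ) : ℂ) := by
  have hh' := abs_le.1 hh
  have e1 : (hits s S A h : ℝ) - d * positives A h = ∑ k ∈ A, (if 0 < (k : ℤ) + h then
      (S.indicator (fun _ => (1 : ℝ)) (s * ((k : ℤ) + h)) - d) else (0 : ℝ)) := by
    unfold hits positives
    rw [Finset.card_filter, Finset.card_filter]
    push_cast
    rw [Finset.mul_sum, ← Finset.sum_sub_distrib]
    apply Finset.sum_congr rfl
    intro k _
    by_cases h1 : 0 < (k : ℤ) + h
    · rw [if_pos h1, if_pos h1]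
      by_cases h2 : s * ((k : ℤ) + h) ∈ S
      · rw [if_pos ⟨h1, h2⟩, Set.indicator_of_mem h2]
        ring
      · rw [if_neg (fun h3 => h2 h3.2), Set.indicator_of_notMem h2]
        ring
    · rw [if_neg h1, if_neg h1, if_neg (fun h3 => h1 h3.1)]
      ring
  rw [e1]
  unfold Del
  have e2 : ∀ m ∈ Finset.Icc 1 (2 * B * N), (if m ∈ A then (1 : ℂ) else 0) *
      ext (fun n => ((S.indicator (fun _ => (1 : ℝ)) (s * n) - d : ℝ) : ℂ)) (2 * B * N) (m + h) =
      if m ∈ A then ext (fun n => ((S.indicator (fun _ => (1 : ℝ)) (s * n) - d : ℝ) : ℂ)) (2 * B * N) (m + h) else 0 := by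
    intro m _
    split_ifs <;> ring
  rw [Finset.sum_congr rfl e2, ← Finset.sum_filter]
  have e3 : (Finset.Icc 1 (2 * B * N)).filter (fun m => m ∈ A) = A := by
    ext m
    rw [Finset.mem_filter, Finset.mem_Icc]
    constructor
    · exact fun h3 => h3.2
    · intro h3
      have h4 := Finset.mem_Icc.1 (hA h3)
      refine ⟨⟨h4.1, ?_⟩, h3⟩
      have : 2 * B * N = B * N + B * N := by ring
      omega
  rw [e3]
  push_cast
  refine Finset.sum_congr rfl fun k hk => ?_
  have h4 := Finset.mem_Icc.1 (hA hk)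
  have h4' : (k : ℤ) ≤ (B : ℤ) * N := by exact_mod_cast h4.2
  unfold ext
  by_cases h1 : 0 < (k : ℤ) + h
  · rw [if_pos, if_pos h1]
    · have h5 : ((((k : ℤ) + h).toNat : ℕ) : ℤ) = (k : ℤ) + h := Int.toNat_of_nonneg h1.le
      simp only [h5]
      push_cast
      rfl
    · refine ⟨by omega, ?_⟩
      push_cast
      have : (2 : ℤ) * B * N = B * N + B * N := by ring
      omega
  · rw [if_neg h1, if_neg (fun h3 => h1 (by omega))]
    simp

open Classical in
lemma general {s : ℤ} {S : Set ℤ} {d : ℝ} (hd0 : 0 ≤ d) (hd1 : d ≤ 1) (hF : FUs s S d) (t B R W : ℕ) (hB : 1 ≤ B)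
    (K ε : ℝ) (hε : 0 < ε) : ∃ C : ℝ, ∀ ρ : ℝ, 0 < ρ → ∃ N₀ : ℕ, ∀ N : ℕ, N₀ ≤ N →
    ∀ (Z : Type) [Fintype Z] (v : Z → ℤ), (∀ x, |v x| ≤ B * N) →
    (energy t v : ℝ) * N ≤ K * (Fintype.card Z : ℝ) ^ (2 * t) → ∀ g : Z → ℝ,
    ∀ A : Fin R → Finset ℕ, (∀ i, A i ⊆ Finset.Icc 1 (B * N)) →
    ∃ 𝓔 : Set ℝ, Small 𝓔 C ρ ∧ ∀ α ∉ 𝓔, ∀ β : ℝ,
      (((Finset.univ : Finset Z).filter fun x => Bad s S d B W N ε A (α * v x + g x + β)).card : ℝ) ≤
        ε * Fintype.card Z := by
  obtain ⟨C, hC⟩ := fl_qual t B R W hB K ε hε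
  refine ⟨C, fun ρ hρ => ?_⟩
  obtain ⟨η, hη, N₁, h1⟩ := hC ρ hρ
  obtain ⟨N₂, h2⟩ := hF (η / (2 * B)) (by positivity)
  refine ⟨max N₁ N₂, fun N hN Z _ v hv hE g A hA => ?_⟩
  have hN1 : N₁ ≤ N := le_trans (le_max_left _ _) hN
  have hN2 : N₂ ≤ N := le_trans (le_max_right _ _) hN
  have hBr : (0 : ℝ) < B := by exact_mod_cast (by omega : 0 < B)
  obtain ⟨𝓔, hE1, hE2⟩ := h1 N hN1 (fun n => ((S.indicator (fun _ => (1 : ℝ)) (s * n) - d : ℝ) : ℂ)) (by
      intro n
      rw [Complex.norm_real, Real.norm_eq_abs, abs_le]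
      by_cases h : s * (n : ℤ) ∈ S
      · rw [Set.indicator_of_mem h]
        constructor <;> linarith
      · rw [Set.indicator_of_notMem h]
        constructor <;> linarith) (by
      intro θ
      have h3 : N₂ ≤ 2 * B * N := by nlinarith
      have h4 := h2 (2 * B * N) h3 θ
      refine le_trans (le_of_eq ?_) (h4.trans (le_of_eq ?_))
      · unfold Pool.Agent.Y834.CD.es
        congr 1
        refine Finset.sum_congr rfl fun n _ => ?_
        congr 1
        unfold Pool.Agent.H469R2.NK.e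
        congr 1
        push_cast
        ring
      · push_cast
        field_simp) Z v hv hE g A hA
  refine ⟨𝓔, hE1, fun α hα β => ?_⟩
  refine le_trans ?_ (hE2 α hα β)
  apply Nat.cast_le.2
  apply Finset.card_le_card
  intro x hx
  rw [Finset.mem_filter] at hx ⊢
  obtain ⟨h3, i, h, h4, h5, h6⟩ := hx
  refine ⟨h3, i, h, h4, ?_⟩
  rw [Del_hits s S d B N (A i) (hA i) h h5, Complex.norm_real, Real.norm_eq_abs]
  exact h6

lemma Phi_mono {y x : ℝ} (h : y ≤ x) : Phi y ≤ Phi x := ProbabilityTheory.monotone_cdf _ h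

lemma Phi_nonneg (y : ℝ) : 0 ≤ Phi y := ProbabilityTheory.cdf_nonneg _ _

lemma Phi_le_one (y : ℝ) : Phi y ≤ 1 := ProbabilityTheory.cdf_le_one _ _

open Classical in
/-- Each integer `a` with divergent trajectory has a number `δ a > 0` such that the integers whose trajectories meet that
of `a` have natural density `δ a` among the integers of the sign of `a`. Let the trajectory of `a` be divergent,
`m ≥ 1`, `p` an integer, `y ≤ x`, and `S = Window a m p y x` the set of the integers whose trajectories meet that of `a`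
with a time shift `u ≡ p` modulo `m` such that `bound y < u ≤ bound x`. Put `d = δ a (Phi x - Phi y) / m`. Let `B ≥ 1`,
`R`, `W` be natural numbers and `ε > 0`.

(1) For every order `t` and every `K` there is `C` such that for every `ρ > 0` and all large `N` the following holds. Let
`v : Z → ℤ` be ANY finite family of integers at most `B N` in absolute value whose additive energy of order `t` is at
most `K |Z| ^ (2 t) / N`, let `g : Z → ℝ` be ARBITRARY, and let `A 1, ..., A R ⊆ {1, ..., B N}` be ARBITRARY sets. For all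
real numbers `α` outside a set `𝓔`, which meets every interval of length `1` in a set covered by `C` intervals of length
`2 ρ`, for ALL real numbers `β` and for all `x ∈ Z` but at most `ε |Z|`: for ALL integers `h` with
`|h - (α v(x) + g(x) + β)| ≤ W` and `|h| ≤ B N` and all `i` the number of the `k ∈ A i` for which `n = k + h` is positive
and `± n`, with the sign of `a`, is in `S`, is `d` times the number of the `k ∈ A i` with `k + h > 0`, up to `ε N`.

(2) For every polynomial `F` with integer coefficients and of degree at least `1` and every `κ > 0` the same holds for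
`v(x) = F(x)`, `x ∈ Z`, where `Z ⊆ {1, ..., X}` is any set with at least `κ X` members, `B X ^ deg F ≥ N` and `|F| ≤ B N`
on `Z`. -/
theorem result :
    ∃ δ : ℤ → ℝ, (∀ a : ℤ, Divergent a → 0 < δ a ∧ δ a ≤ 1 ∧ HasDensity a.sign (Class a) (δ a)) ∧
    ∀ a : ℤ, Divergent a → ∀ m : ℕ, 1 ≤ m → ∀ (p : ℤ) (y x : ℝ), y ≤ x → ∀ B R W : ℕ, 1 ≤ B → ∀ ε : ℝ, 0 < ε →
      (∀ (t : ℕ) (K : ℝ), ∃ C : ℝ, ∀ ρ : ℝ, 0 < ρ → ∃ N₀ : ℕ, ∀ N : ℕ, N₀ ≤ N →
        ∀ (Z : Type) [Fintype Z] (v : Z → ℤ), (∀ z, |v z| ≤ B * N) →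
        (energy t v : ℝ) * N ≤ K * (Fintype.card Z : ℝ) ^ (2 * t) → ∀ g : Z → ℝ,
        ∀ A : Fin R → Finset ℕ, (∀ i, A i ⊆ Finset.Icc 1 (B * N)) →
        ∃ 𝓔 : Set ℝ, Small 𝓔 C ρ ∧ ∀ α ∉ 𝓔, ∀ β : ℝ,
          (((Finset.univ : Finset Z).filter fun z => Bad a.sign (Window a m p y x) (δ a * (Phi x - Phi y) / m) B W N ε A
            (α * v z + g z + β)).card : ℝ) ≤ ε * Fintype.card Z) ∧
      (∀ F : Polynomial ℤ, 1 ≤ F.natDegree → ∀ κ : ℝ, 0 < κ → ∃ C : ℝ, ∀ ρ : ℝ, 0 < ρ → ∃ N₀ : ℕ, ∀ N : ℕ, N₀ ≤ N →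
        ∀ (X : ℕ) (Z : Finset ℕ), Z ⊆ Finset.Icc 1 X → κ * X ≤ Z.card → N ≤ B * X ^ F.natDegree →
        (∀ z ∈ Z, |F.eval (z : ℤ)| ≤ B * N) → ∀ g : ℕ → ℝ,
        ∀ A : Fin R → Finset ℕ, (∀ i, A i ⊆ Finset.Icc 1 (B * N)) →
        ∃ 𝓔 : Set ℝ, Small 𝓔 C ρ ∧ ∀ α ∉ 𝓔, ∀ β : ℝ,
          ((Z.filter fun z : ℕ => Bad a.sign (Window a m p y x) (δ a * (Phi x - Phi y) / m) B W N ε A
            (α * F.eval (z : ℤ) + g z + β)).card : ℝ) ≤ ε * Z.card) := by
  refine ⟨dens, fun a ha => ?_, fun a ha m hm p y x hyx B R W hB ε hε => ?_⟩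
  · obtain ⟨h1, h2, h3, -⟩ := dens_spec ha
    exact ⟨h1, h2, h3⟩
  · have hF := FUs_window ha hm p hyx
    obtain ⟨hd0, hd1, -, -⟩ := dens_spec ha
    have hm1 : (1 : ℝ) ≤ m := by exact_mod_cast hm
    have h1 : Phi y ≤ Phi x := Phi_mono hyx
    have h2 : Phi x - Phi y ≤ 1 := by have := Phi_nonneg y; have := Phi_le_one x; linarith
    have h3 : 0 ≤ dens a * (Phi x - Phi y) / m := div_nonneg (mul_nonneg hd0.le (by linarith)) (by linarith)
    have h4 : dens a * (Phi x - Phi y) / m ≤ 1 := by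
      rw [div_le_one (by linarith)]
      nlinarith
    have key : ∀ (t : ℕ) (K : ℝ), ∃ C : ℝ, ∀ ρ : ℝ, 0 < ρ → ∃ N₀ : ℕ, ∀ N : ℕ, N₀ ≤ N →
        ∀ (Z : Type) [Fintype Z] (v : Z → ℤ), (∀ z, |v z| ≤ B * N) →
        (energy t v : ℝ) * N ≤ K * (Fintype.card Z : ℝ) ^ (2 * t) → ∀ g : Z → ℝ,
        ∀ A : Fin R → Finset ℕ, (∀ i, A i ⊆ Finset.Icc 1 (B * N)) →
        ∃ 𝓔 : Set ℝ, Small 𝓔 C ρ ∧ ∀ α ∉ 𝓔, ∀ β : ℝ,
          (((Finset.univ : Finset Z).filter fun z => Bad a.sign (Window a m p y x) (dens a * (Phi x - Phi y) / m) B W N ε A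
            (α * v z + g z + β)).card : ℝ) ≤ ε * Fintype.card Z := fun t K =>
      general (s := a.sign) (S := Window a m p y x) (d := dens a * (Phi x - Phi y) / m) h3 h4 hF t B R W hB K ε hε
    refine ⟨key, fun F hFd κ hκ => ?_⟩
    obtain ⟨q, c, hc, hq⟩ := Pool.Agent.TH823.Fam.energy_poly' F hFd
    obtain ⟨C, hC⟩ := key q (B * (c * (1 / κ) ^ (2 * q)))
    refine ⟨C, fun ρ hρ => ?_⟩
    obtain ⟨N₀, hN₀⟩ := hC ρ hρ
    refine ⟨max N₀ 1, fun N hN X Z hZ hZX hNX hFN g A hA => ?_⟩
    have hN1 : 1 ≤ N := le_trans (le_max_right _ _) hN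
    have hX1 : 1 ≤ X := by
      by_contra hcon
      have : X = 0 := by omega
      subst this
      rw [zero_pow (by omega), mul_zero] at hNX
      omega
    have h5 : (Pool.Agent.TH935.GF.En q (fun n : {n // n ∈ Z} => F.eval ((n : ℕ) : ℤ)) : ℝ) ≤
        Pool.Agent.H373R2.T7.energy q X (fun n => F.eval (n : ℤ)) := by
      exact_mod_cast Pool.Agent.H96.PR.energy_sub q X (fun n => F.eval (n : ℤ)) Z hZ
    have h6 := hq X hX1 0
    simp only [zero_add] at h6
    have h7 : (N : ℝ) ≤ B * (X : ℝ) ^ F.natDegree := by exact_mod_cast hNX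
    have h8 : (X : ℝ) ≤ 1 / κ * Z.card := by
      rw [div_mul_eq_mul_div, one_mul, le_div_iff₀ hκ, mul_comm]
      exact hZX
    have hX0 : (0 : ℝ) ≤ X := Nat.cast_nonneg _
    have hBr : (0 : ℝ) ≤ B := Nat.cast_nonneg _
    have h9 : (energy q (fun n : {n // n ∈ Z} => F.eval ((n : ℕ) : ℤ)) : ℝ) * N ≤
        B * (c * (1 / κ) ^ (2 * q)) * (Fintype.card {n // n ∈ Z} : ℝ) ^ (2 * q) := by
      rw [Fintype.card_coe]
      calc (Pool.Agent.TH935.GF.En q (fun n : {n // n ∈ Z} => F.eval ((n : ℕ) : ℤ)) : ℝ) * N ≤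
            Pool.Agent.H373R2.T7.energy q X (fun n => F.eval (n : ℤ)) * (B * (X : ℝ) ^ F.natDegree) :=
            mul_le_mul h5 h7 (Nat.cast_nonneg _) (Nat.cast_nonneg _)
        _ = B * (Pool.Agent.H373R2.T7.energy q X (fun n => F.eval (n : ℤ)) * (X : ℝ) ^ F.natDegree) := by ring
        _ ≤ B * (c * (X : ℝ) ^ (2 * q)) := mul_le_mul_of_nonneg_left h6 hBr
        _ ≤ B * (c * (1 / κ * Z.card) ^ (2 * q)) := by gcongr
        _ = _ := by
            rw [mul_pow]
            ring
    obtain ⟨𝓔, hE1, hE2⟩ := hN₀ N (le_trans (le_max_left _ _) hN) {n // n ∈ Z} (fun n => F.eval ((n : ℕ) : ℤ))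
      (fun z => hFN z z.2) h9 (fun n => g n) A hA
    refine ⟨𝓔, hE1, fun α hα β => ?_⟩
    have h10 := hE2 α hα β
    rw [Fintype.card_coe] at h10
    refine le_trans ?_ h10
    apply Nat.cast_le.2
    apply Finset.card_le_card_of_surjOn (fun z : {n // n ∈ Z} => (z : ℕ))
    intro z hz
    rw [Finset.mem_coe, Finset.mem_filter] at hz
    refine ⟨⟨z, hz.1⟩, ?_, rfl⟩
    rw [Finset.mem_coe, Finset.mem_filter]
    exact ⟨Finset.mem_univ _, hz.2⟩

end Pool.Agent.Results.MP_ff4775_nt.NearRealMultiples
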