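import Pool.Agent.H77.Nc.End

/-!
# No cancellation among the terms of a trajectory of the `3x+1` map

The terms `x, T x, …, T^n x` are a window if `n ≤ K log N` and all of them have absolute value at
least `N`; here `K` is any constant and `N` is large.

(1) Gap principle: a linear form with at most `r` terms of a window and with coefficients of size at
most `N ^ δ` never lies between `N ^ ε` and `N ^ (1 - ε)` in absolute value; if it is smaller, then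
all the integers `y ≡ x` modulo `2 ^ n` give the same value.
(2) Sums of at most `r` `d`-th powers of terms with odd coefficients are at least `N ^ (-ε)` times
their largest summand.
(3) The `d`-th powers of the terms form a Sidon set.
(4) The same as (2) for forms of degree `d` with `m` monomials, unless the leading units
`3 ^ o / 2 ^ i` of some of the monomials satisfy an exact linear relation.
(5) Signed sums of any number of `d`-th powers of the terms of a short window.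
(6) The first `K log |x|` terms of the trajectory of any large integer `x`, for `K log 2 < 1`.
(7) The windows of divergent trajectories.
(8) Trajectories which grow at least exponentially.
-/

set_option autoImplicit false

namespace Pool.Agent.Results.MP_ff4775_nt.NoCancellation

open Finset Filter Topology

/-- the `3x+1` map of the problem -/
def T (x : ℤ) : ℤ := if x % 2 = 0 then x / 2 else (3 * x + 1) / 2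

/-- the trajectory of `x` is divergent -/
def Divergent (x : ℤ) : Prop := Tendsto (fun k : ℕ => |T^[k] x|) atTop atTop

/-- the terms `x, T x, …, T ^ n x` are a window: `n ≤ K log N`, and all of them have absolute value
at least `N` -/
def Window (K N : ℝ) (x : ℤ) (n : ℕ) : Prop :=
  (n : ℝ) ≤ K * Real.log N ∧ ∀ i ≤ n, N ≤ |((T^[i] x : ℤ) : ℝ)|

/-- the least absolute value of the terms `T^k x, …, T^(k+n) x` -/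
noncomputable def least (x : ℤ) (k n : ℕ) : ℝ :=
  (range (n + 1)).inf' ⟨0, by simp⟩ fun i => |((T^[k + i] x : ℤ) : ℝ)|

/-- the number of the odd terms among `x, T x, …, T ^ (i - 1) x` -/
def odds (x : ℤ) (i : ℕ) : ℕ := ((range i).filter fun j => T^[j] x % 2 ≠ 0).card

/-- There is no exact relation `∑_{l ∈ J} c_l u_l = 0` between the leading units
`u_l = ∏_j 3 ^ odds x (p l j) / 2 ^ p l j` of the monomials `∏_j T ^ (p l j) x`, where `J` is a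
non-empty set of monomials whose weights `∑_j p l j` differ by at most `ε log N`. -/
def NoRel {m d : ℕ} (ε N : ℝ) (x : ℤ) (p : Fin m → Fin d → ℕ) (c : Fin m → ℤ) : Prop :=
  ∀ J : Finset (Fin m), J.Nonempty →
    (∀ a ∈ J, ∀ b ∈ J, |(∑ j, (p a j : ℝ)) - ∑ j, (p b j : ℝ)| ≤ ε * Real.log N) →
    ∑ l ∈ J, (c l : ℝ) * ∏ j, ((3 : ℝ) ^ odds x (p l j) / 2 ^ p l j) ≠ 0

/-- **No cancellation among the terms of a trajectory.** -/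
theorem result :
    -- (1) the gap principle
    (∀ (r : ℕ) (K ε : ℝ), 0 < ε → ∃ δ : ℝ, 0 < δ ∧ ∃ N₀ : ℝ, 1 ≤ N₀ ∧
      ∀ (x : ℤ) (n : ℕ) (N : ℝ), N₀ ≤ N → Window K N x n →
      ∀ (I : Finset ℕ) (c : ℕ → ℤ), I.card ≤ r → (∀ i ∈ I, i ≤ n ∧ |(c i : ℝ)| ≤ N ^ δ) →
      |∑ i ∈ I, (c i : ℝ) * ((T^[i] x : ℤ) : ℝ)| ≤ N ^ (1 - ε) →
      |∑ i ∈ I, (c i : ℝ) * ((T^[i] x : ℤ) : ℝ)| ≤ N ^ ε ∧
      ∀ y : ℤ, (2 : ℤ) ^ n ∣ y - x → ∑ i ∈ I, c i * T^[i] y = ∑ i ∈ I, c i * T^[i] x) ∧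
    -- (2) sums of at most `r` `d`-th powers with odd coefficients
    (∀ (r d : ℕ) (K ε : ℝ), 1 ≤ d → 0 < ε → ∃ δ : ℝ, 0 < δ ∧ ∃ N₀ : ℝ, 1 ≤ N₀ ∧
      ∀ (x : ℤ) (n : ℕ) (N : ℝ), N₀ ≤ N → Window K N x n →
      ∀ (I : Finset ℕ) (c : ℕ → ℤ), I.card ≤ r →
      (∀ i ∈ I, i ≤ n ∧ c i % 2 = 1 ∧ |(c i : ℝ)| ≤ N ^ δ) → ∀ j ∈ I,
      |((T^[j] x : ℤ) : ℝ)| ^ d ≤ N ^ ε * |∑ i ∈ I, (c i : ℝ) * ((T^[i] x : ℤ) : ℝ) ^ d|) ∧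
    -- (3) the `d`-th powers of the terms form a Sidon set
    (∀ (d : ℕ) (K : ℝ), 1 ≤ d → ∃ N₀ : ℝ, 1 ≤ N₀ ∧
      ∀ (x : ℤ) (n : ℕ) (N : ℝ), N₀ ≤ N → Window K N x n →
      ∀ i j k l, i ≤ j → j ≤ n → k ≤ l → l ≤ n →
      (T^[i] x) ^ d + (T^[j] x) ^ d = (T^[k] x) ^ d + (T^[l] x) ^ d → i = k ∧ j = l) ∧
    -- (4) forms with `m` monomials of degree `d`
    (∀ (m d : ℕ) (K ε : ℝ), 0 < ε → ∃ δ : ℝ, 0 < δ ∧ ∃ N₀ : ℝ, 1 ≤ N₀ ∧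
      ∀ (x : ℤ) (n : ℕ) (N : ℝ), N₀ ≤ N → Window K N x n →
      ∀ (p : Fin m → Fin d → ℕ) (c : Fin m → ℤ), (∀ l j, p l j ≤ n) →
      (∀ l, |(c l : ℝ)| ≤ N ^ δ) → NoRel ε N x p c → ∀ k,
      |∏ j, ((T^[p k j] x : ℤ) : ℝ)| ≤
        N ^ ε * |∑ l, (c l : ℝ) * ∏ j, ((T^[p l j] x : ℤ) : ℝ)|) ∧
    -- (5) short windows
    (∀ (d : ℕ) (ε : ℝ), 1 ≤ d → 0 < ε → ∃ N₀ : ℝ, 1 ≤ N₀ ∧
      ∀ (x : ℤ) (n : ℕ) (N : ℝ), N₀ ≤ N → d * n * Real.log 3 ≤ (1 - ε) * Real.log N →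
      (∀ i ≤ n, N ≤ |((T^[i] x : ℤ) : ℝ)|) →
      ∀ c : ℕ → ℤ, (∀ i ≤ n, c i = 0 ∨ c i = 1 ∨ c i = -1) → (∃ i ≤ n, c i ≠ 0) →
      |(x : ℝ)| ^ d ≤ 2 ^ (d * n + 1) *
        |∑ i ∈ range (n + 1), (c i : ℝ) * ((T^[i] x : ℤ) : ℝ) ^ d|) ∧
    -- (6) the first terms of the trajectory of any large integer
    ((∀ (r : ℕ) (K ε : ℝ), 0 < K → K * Real.log 2 < 1 → 0 < ε →
      ∃ δ : ℝ, 0 < δ ∧ ∃ N₀ : ℝ, 1 ≤ N₀ ∧ ∀ x : ℤ, N₀ ≤ |(x : ℝ)| →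
      ∀ (n : ℕ) (I : Finset ℕ) (c : ℕ → ℤ), (n : ℝ) ≤ K * Real.log |(x : ℝ)| → I.card ≤ r →
      (∀ i ∈ I, i ≤ n ∧ |(c i : ℝ)| ≤ |(x : ℝ)| ^ δ) →
      |∑ i ∈ I, (c i : ℝ) * ((T^[i] x : ℤ) : ℝ)| ≤ |(x : ℝ)| ^ (1 - K * Real.log 2 - ε) →
      |∑ i ∈ I, (c i : ℝ) * ((T^[i] x : ℤ) : ℝ)| ≤ |(x : ℝ)| ^ ε ∧
      ∀ y : ℤ, (2 : ℤ) ^ n ∣ y - x → ∑ i ∈ I, c i * T^[i] y = ∑ i ∈ I, c i * T^[i] x) ∧
    (∀ (r d : ℕ) (K ε : ℝ), 1 ≤ d → 0 < K → K * Real.log 2 < 1 → 0 < ε →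
      ∃ δ : ℝ, 0 < δ ∧ ∃ N₀ : ℝ, 1 ≤ N₀ ∧ ∀ x : ℤ, N₀ ≤ |(x : ℝ)| →
      ∀ (I : Finset ℕ) (c : ℕ → ℤ), I.card ≤ r →
      (∀ i ∈ I, (i : ℝ) ≤ K * Real.log |(x : ℝ)| ∧ c i % 2 = 1 ∧ |(c i : ℝ)| ≤ |(x : ℝ)| ^ δ) →
      ∀ j ∈ I, |((T^[j] x : ℤ) : ℝ)| ^ d ≤
        |(x : ℝ)| ^ ε * |∑ i ∈ I, (c i : ℝ) * ((T^[i] x : ℤ) : ℝ) ^ d|) ∧
    (∀ (d : ℕ) (K : ℝ), 1 ≤ d → 0 < K → K * Real.log 2 < 1 → ∃ N₀ : ℝ, 1 ≤ N₀ ∧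
      ∀ x : ℤ, N₀ ≤ |(x : ℝ)| → ∀ i j k l : ℕ, i ≤ j → (j : ℝ) ≤ K * Real.log |(x : ℝ)| →
      k ≤ l → (l : ℝ) ≤ K * Real.log |(x : ℝ)| →
      (T^[i] x) ^ d + (T^[j] x) ^ d = (T^[k] x) ^ d + (T^[l] x) ^ d → i = k ∧ j = l)) ∧
    -- (7) far windows of divergent trajectories
    ((∀ (r : ℕ) (K ε : ℝ), 0 < ε → ∃ δ : ℝ, 0 < δ ∧
      ∀ x : ℤ, Divergent x → ∃ k₀ : ℕ, ∀ k ≥ k₀, ∀ n : ℕ, (n : ℝ) ≤ K * Real.log (least x k n) →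
      ∀ (I : Finset ℕ) (c : ℕ → ℤ), I.card ≤ r →
      (∀ i ∈ I, i ≤ n ∧ |(c i : ℝ)| ≤ least x k n ^ δ) →
      |∑ i ∈ I, (c i : ℝ) * ((T^[k + i] x : ℤ) : ℝ)| ≤ least x k n ^ (1 - ε) →
      |∑ i ∈ I, (c i : ℝ) * ((T^[k + i] x : ℤ) : ℝ)| ≤ least x k n ^ ε ∧
      ∀ y : ℤ, (2 : ℤ) ^ n ∣ y - T^[k] x →
        ∑ i ∈ I, c i * T^[i] y = ∑ i ∈ I, c i * T^[k + i] x) ∧
    (∀ (r d : ℕ) (K ε : ℝ), 1 ≤ d → 0 < ε → ∃ δ : ℝ, 0 < δ ∧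
      ∀ x : ℤ, Divergent x → ∃ k₀ : ℕ, ∀ k ≥ k₀, ∀ n : ℕ, (n : ℝ) ≤ K * Real.log (least x k n) →
      ∀ (I : Finset ℕ) (c : ℕ → ℤ), I.card ≤ r →
      (∀ i ∈ I, k ≤ i ∧ i ≤ k + n ∧ c i % 2 = 1 ∧ |(c i : ℝ)| ≤ least x k n ^ δ) → ∀ j ∈ I,
      |((T^[j] x : ℤ) : ℝ)| ^ d ≤
        least x k n ^ ε * |∑ i ∈ I, (c i : ℝ) * ((T^[i] x : ℤ) : ℝ) ^ d|) ∧
    (∀ (d : ℕ) (K : ℝ), 1 ≤ d → ∀ x : ℤ, Divergent x → ∃ q₀ : ℕ, ∀ q ≥ q₀, ∀ n : ℕ,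
      (n : ℝ) ≤ K * Real.log (least x q n) →
      ∀ i j k l : ℕ, q ≤ i → i ≤ j → j ≤ q + n → q ≤ k → k ≤ l → l ≤ q + n →
      (T^[i] x) ^ d + (T^[j] x) ^ d = (T^[k] x) ^ d + (T^[l] x) ^ d → i = k ∧ j = l)) ∧
    -- (8) trajectories which grow at least exponentially
    ∀ (r d : ℕ) (H : ℝ), 1 ≤ d → ∀ (x : ℤ) (a : ℝ), 0 < a →
      (∀ᶠ k : ℕ in atTop, Real.exp (a * k) ≤ |((T^[k] x : ℤ) : ℝ)|) →
      (∀ ε : ℝ, 0 < ε → ε < 1 → ∃ k₀ : ℕ,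
        ∀ (I : Finset ℕ) (c : ℕ → ℤ), I.card ≤ r → (∀ i ∈ I, c i % 2 = 1 ∧ |(c i : ℝ)| ≤ H) →
        ∀ q ∈ I, k₀ ≤ q → ∀ j ∈ I, |((T^[j] x : ℤ) : ℝ)| ^ ((d : ℝ) * (1 - ε)) ≤
          |∑ i ∈ I, (c i : ℝ) * ((T^[i] x : ℤ) : ℝ) ^ d|) ∧
      ∀ m : ℝ, Set.Finite {I : Finset ℕ | I.card ≤ r ∧ ∃ c : ℕ → ℤ,
        (∀ i ∈ I, c i % 2 = 1 ∧ |(c i : ℝ)| ≤ H) ∧
        |∑ i ∈ I, (c i : ℝ) * ((T^[i] x : ℤ) : ℝ) ^ d| ≤ m} := by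
  refine ⟨?_, ?_, ?_, ?_, ?_, ⟨?_, ?_, ?_⟩, ⟨?_, ?_, ?_⟩, ?_⟩
  · intro r K ε hε
    obtain ⟨δ, hδ, N₀, hN₀, h⟩ := H77.Nc.parity r K ε hε
    exact ⟨δ, hδ, N₀, hN₀, fun x n N hN hw => h x n N hN hw.1 hw.2⟩
  · intro r d K ε hd hε
    obtain ⟨δ, hδ, N₀, hN₀, h⟩ := H77.Nc.powers r d hd K ε hε
    exact ⟨δ, hδ, N₀, hN₀, fun x n N hN hw => h x n N hN hw.1 hw.2⟩
  · intro d K hd
    obtain ⟨N₀, hN₀, h⟩ := H77.Nc.sidon d hd K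
    exact ⟨N₀, hN₀, fun x n N hN hw => h x n N hN hw.1 hw.2⟩
  · intro m d K ε hε
    obtain ⟨δ, hδ, N₀, hN₀, h⟩ := H77.Nc.forms m d K ε hε
    exact ⟨δ, hδ, N₀, hN₀, fun x n N hN hw => h x n N hN hw.1 hw.2⟩
  · exact fun d ε hd hε => H77.Nc.short d hd ε hε
  · exact fun r K ε hK hK' hε => H77.Nc.firstGap r K ε hK hK' hε
  · exact fun r d K ε hd hK hK' hε => H77.Nc.first r d hd K ε hK hK' hε
  · exact fun d K hd hK hK' => H77.Nc.firstSidon d hd K hK hK'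
  · exact fun r K ε hε => H77.Nc.farGap r K ε hε
  · exact fun r d K ε hd hε => H77.Nc.far r d hd K ε hε
  · exact fun d K hd x hx => H77.Nc.farSidon d hd K x hx
  · exact fun r d H hd x a ha hx =>
      ⟨fun ε hε hε1 => H77.Nc.tail r d hd H ε hε hε1 x a ha hx,
        fun m => H77.Nc.finite r d hd H m x a ha hx⟩

end Pool.Agent.Results.MP_ff4775_nt.NoCancellation
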